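import Pool.Agent.helper73.ASU.Spec

/-! Row asu:AE (MP_f6e9a2_nt): few exceptional primes at one scale. -/

set_option autoImplicit false

namespace Pool.Agent.ASU

open Finset

theorem AE_bad (hTR : TR_stmt) {α β : Type} (m : α → β → ℂ) (V : Finset α) (W : Finset β) (k : ℕ) (hk : 1 ≤ k) (R θ : ℝ)
    (hR : 0 < R) (hθ : 0 < θ) (h : Bad m V W k R θ) : θ ^ (2 * k) * R ≤ (TT m V W k).re := by
  obtain ⟨A, hA, B, hB, w, hw, hRs, hlt⟩ := h
  set s : ℝ := (A.card : ℝ) * B.card with hs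
  have hs0 : 0 ≤ s := by positivity
  have hspos : 0 < s := by
    rcases hs0.eq_or_lt with h0 | h0
    · rw [← h0, zero_pow (by omega)] at hRs
      linarith
    · exact h0
  have hsk : 0 < s ^ k := pow_pos hspos k
  have h1 := (hTR α β m V W k hk).2 A hA B hB w hw
  rw [← hs] at h1
  have h2 : (θ * s) ^ (2 * k) ≤ BB m A B w ^ (2 * k) := pow_le_pow_left₀ (by positivity) hlt.le _
  have h3 : θ ^ (2 * k) * s ^ k * s ^ k ≤ (TT m V W k).re * s ^ k := by
    calc θ ^ (2 * k) * s ^ k * s ^ k = (θ * s) ^ (2 * k) := by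
          rw [mul_pow, two_mul, pow_add, pow_add]
          ring
      _ ≤ s ^ k * (TT m V W k).re := h2.trans h1
      _ = _ := by ring
  have h4 : θ ^ (2 * k) * s ^ k ≤ (TT m V W k).re := le_of_mul_le_mul_right h3 hsk
  refine le_trans ?_ h4
  exact mul_le_mul_of_nonneg_left hRs (by positivity)

theorem AE (hTR : TR_stmt) (hAS1 : AS1_stmt) : AE_stmt := by
  intro k hk ε hε
  obtain ⟨C, hC, hS⟩ := hAS1 k hk ε hε
  refine ⟨C, hC, ?_⟩
  intro N X hN hX R θ hR hθ E hE
  refine le_trans ?_ (hS N X hN hX)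
  have h1 : θ ^ (2 * k) * R * E.card ≤ ∑ p ∈ E, (TT (JM p) (range N) (range N) k).re := by
    calc θ ^ (2 * k) * R * E.card = ∑ p ∈ E, θ ^ (2 * k) * R := by
          rw [Finset.sum_const, nsmul_eq_mul]
          ring
      _ ≤ _ := Finset.sum_le_sum fun p hp => AE_bad hTR (JM p) (range N) (range N) k hk R θ hR hθ (hE p hp).2.2.2
  refine h1.trans (Finset.sum_le_sum_of_subset_of_nonneg ?_ fun n _ _ => (hTR ℕ ℕ (JM n) (range N) (range N) k hk).1)
  intro p hp
  obtain ⟨hp1, hp2, hp3, -⟩ := hE p hp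
  rw [Finset.mem_filter, Finset.mem_range]
  exact ⟨by omega, hp1.odd_of_ne_two hp2⟩

end Pool.Agent.ASU
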